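import Pool.Agent.Helper80.TQ.En
import Pool.Agent.Helper38.SP.Sel

/-!
# One block of numbers with many digits `0`
-/

set_option autoImplicit false

open Finset Filter

namespace Pool.Agent.Helper80.TQ

open Pool.Agent.Helper38.SP (quad EX_quad sum_quad_eq select EX)

/-- one block, for one `k` -/
theorem block_one (k : ℕ) (d X : ℝ) (hd0 : 0 < d) (hd1 : d ≤ 2 / 5) (hkd : 8 ≤ k * d ^ 2)
    (hX : (1 + d ^ 4) ^ k ≤ X) (hk : 32 ≤ √((2 : ℝ) ^ k)) :
    ∃ B ⊆ range (2 ^ k), ((quad B).card : ℝ) ≤ 4 * (X + 8) * 2 ^ k ∧ √((2 : ℝ) ^ k) ≤ 4 * #B ∧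
      ∀ b ∈ B, k * d / 2 ≤ 2 * (zs k b : ℝ) - k := by
  classical
  obtain ⟨s, hs⟩ : ∃ s, s = √((2 : ℝ) ^ k) := ⟨_, rfl⟩
  rw [← hs] at hk ⊢
  have hs0 : 0 < s := by linarith
  have hs2 : s ^ 2 = 2 ^ k := by rw [hs]; exact Real.sq_sqrt (by positivity)
  have hd1' : d ≤ 1 := by linarith
  have hw0 := wt_nonneg hd0.le hd1' k
  obtain ⟨p, hp⟩ : ∃ p : ℕ → ℝ, p = fun a => wt d k a / s := ⟨_, rfl⟩
  have h0 : ∀ a, 0 ≤ p a := fun a => by rw [hp]; exact div_nonneg (hw0 a) hs0.le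
  have h1 : ∀ a, p a ≤ 1 := by
    intro a
    rw [hp]
    simp only
    rw [div_le_one hs0]
    refine (wt_le hd0.le hd1' k a).trans ?_
    rw [hs]
    apply Real.le_sqrt_of_sq_le
    rw [← pow_mul, mul_comm k 2, pow_mul]
    refine pow_le_pow_left₀ (by positivity) ?_ k
    nlinarith
  obtain ⟨G, hG⟩ : ∃ G : Finset ℕ,
    G = (range (2 ^ k)).filter (fun a => k * d / 2 ≤ 2 * (zs k a : ℝ) - k) := ⟨_, rfl⟩
  have hGr : G ⊆ range (2 ^ k) := by rw [hG]; exact filter_subset _ _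
  have hsum : ∑ a ∈ G, p a ≤ s := by
    have h2 : ∑ a ∈ G, p a ≤ ∑ a ∈ range (2 ^ k), p a :=
      sum_le_sum_of_subset_of_nonneg hGr fun a _ _ => h0 a
    refine h2.trans ?_
    rw [hp, ← sum_div, sum_wt, ← hs2, sq, mul_div_assoc, div_self hs0.ne', mul_one]
  have hsum' : s / 2 ≤ ∑ a ∈ G, p a := by
    have h2 := sum_good hd0 hd1' k hkd
    rw [← hG, ← hs2] at h2
    rw [hp, ← sum_div, le_div_iff₀ hs0]
    linarith
  have hX0 : 0 ≤ X := le_trans (by positivity) hX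
  -- the expected energy
  have hE : EX p G (fun S => ((quad S).card : ℝ)) ≤ (X + 8) * 2 ^ k := by
    refine (EX_quad h0 h1 G).trans ?_
    have h2 : ∑ q ∈ quad G, p q.1.1 * p q.1.2 * (p q.2.1 * p q.2.2) ≤ X * 2 ^ k := by
      have h3 : ∑ q ∈ quad G, p q.1.1 * p q.1.2 * (p q.2.1 * p q.2.2) ≤
          ∑ q ∈ quad (range (2 ^ k)), p q.1.1 * p q.1.2 * (p q.2.1 * p q.2.2) := by
        refine sum_le_sum_of_subset_of_nonneg ?_ fun q _ _ =>
          mul_nonneg (mul_nonneg (h0 _) (h0 _)) (mul_nonneg (h0 _) (h0 _))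
        intro q hq
        unfold quad at hq ⊢
        simp only [mem_filter, mem_product] at hq ⊢
        exact ⟨⟨⟨hGr hq.1.1.1, hGr hq.1.1.2⟩, hGr hq.1.2.1, hGr hq.1.2.2⟩, hq.2⟩
      refine h3.trans ?_
      rw [sum_quad_eq]
      have h4 : ∀ n ∈ range (2 * 2 ^ k), (∑ v ∈ (range (2 ^ k) ×ˢ range (2 ^ k)).filter
          (fun v => v.1 + v.2 = n), p v.1 * p v.2) ^ 2 =
          (∑ v ∈ (range (2 ^ k) ×ˢ range (2 ^ k)).filter
          (fun v => v.1 + v.2 = n), wt d k v.1 * wt d k v.2) ^ 2 / s ^ 4 := by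
        intro n _
        have h5 : ∑ v ∈ (range (2 ^ k) ×ˢ range (2 ^ k)).filter (fun v => v.1 + v.2 = n),
            p v.1 * p v.2 = (∑ v ∈ (range (2 ^ k) ×ˢ range (2 ^ k)).filter
            (fun v => v.1 + v.2 = n), wt d k v.1 * wt d k v.2) / s ^ 2 := by
          rw [sum_div, hp]
          refine sum_congr rfl fun v _ => ?_
          simp only
          rw [div_mul_div_comm, sq]
        rw [h5, div_pow]
        congr 1
        ring
      rw [sum_congr rfl h4, ← sum_div, div_le_iff₀ (by positivity)]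
      refine (energy_form d hd0.le hd1' k).trans ?_
      have h5 : s ^ 4 = 2 ^ k * 2 ^ k := by
        rw [show (4 : ℕ) = 2 * 2 from rfl, pow_mul, hs2, sq]
      rw [h5, mul_pow]
      have h6 : (8 : ℝ) ^ k = 2 ^ k * (2 ^ k * 2 ^ k) := by
        rw [← mul_pow, ← mul_pow]
        norm_num
      rw [h6]
      have h7 : (0 : ℝ) < 2 ^ k := by positivity
      have := mul_le_mul_of_nonneg_left hX (by positivity : (0 : ℝ) ≤ 2 ^ k * (2 ^ k * 2 ^ k))
      refine this.trans (le_of_eq ?_)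
      ring
    have h3 : (∑ a ∈ G, p a) ^ 2 ≤ 2 ^ k := by
      rw [← hs2]
      exact pow_le_pow_left₀ (by linarith) hsum 2
    have h4 : ∑ a ∈ G, p a ≤ 2 ^ k := by
      refine hsum.trans ?_
      rw [← hs2]
      nlinarith
    linarith
  obtain ⟨B, hBG, hQ, hB⟩ := select h0 h1 G ({()} : Finset Unit) (fun _ _ => (1 : ℂ))
    (fun _ _ => by rw [norm_one]) hE hsum (Q := 4 * (X + 8) * 2 ^ k) (δ := s / 4)
    (by positivity) (by positivity) (by
      have e1 : (X + 8) * 2 ^ k / (4 * (X + 8) * 2 ^ k) = 1 / 4 := by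
        have : X + 8 ≠ 0 := by positivity
        field_simp
      rw [e1, card_singleton]
      have e2 : ((1 : ℕ) : ℝ) * s / (s / 4) ^ 2 = 16 / s := by
        push_cast
        field_simp
        norm_num
      rw [e2]
      have e3 : 16 / s ≤ 1 / 2 := by
        rw [div_le_iff₀ hs0]
        linarith
      linarith)
  refine ⟨B, hBG.trans hGr, hQ, ?_, fun b hb => ?_⟩
  · have h2 := hB () (mem_singleton_self _)
    have h3 : ∑ a ∈ B, (1 : ℂ) - ∑ a ∈ G, (p a : ℂ) * 1 = (((#B : ℝ) - ∑ a ∈ G, p a : ℝ) : ℂ) := by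
      push_cast
      simp
    rw [h3, Complex.norm_real, Real.norm_eq_abs] at h2
    have h4 := (abs_le.1 h2).1
    linarith
  · have := hBG hb
    rw [hG, mem_filter] at this
    exact this.2

/-- one block, for all large `k` -/
theorem block (c : ℝ) (hc : 0 < c) : ∃ C : ℝ, ∀ᶠ k : ℕ in atTop, ∃ B ⊆ range (2 ^ k),
    ((quad B).card : ℝ) ≤ C * 2 ^ k ∧ √((2 : ℝ) ^ k) ≤ 4 * #B ∧
      ∀ b ∈ B, (k : ℝ) / 2 + c / 4 * (k : ℝ) ^ (3 / 4 : ℝ) ≤ (zs k b : ℝ) := by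
  refine ⟨4 * (Real.exp (c ^ 4) + 8), ?_⟩
  have ht : Tendsto (fun k : ℕ => (k : ℝ) ^ (1 / 4 : ℝ)) atTop atTop :=
    (tendsto_rpow_atTop (by norm_num)).comp tendsto_natCast_atTop_atTop
  have hs : Tendsto (fun k : ℕ => √((2 : ℝ) ^ k)) atTop atTop :=
    Real.tendsto_sqrt_atTop.comp (tendsto_pow_atTop_atTop_of_one_lt (by norm_num))
  filter_upwards [ht.eventually_ge_atTop (5 / 2 * c), ht.eventually_ge_atTop (3 / c),
    hs.eventually_ge_atTop 32, eventually_ge_atTop 1] with k h1 h2 h3 h4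
  obtain ⟨q, hq⟩ : ∃ q : ℝ, q = (k : ℝ) ^ (1 / 4 : ℝ) := ⟨_, rfl⟩
  rw [← hq] at h1 h2
  have hk0 : (0 : ℝ) < k := by exact_mod_cast (by omega : 0 < k)
  have hq0 : 0 < q := by rw [hq]; exact Real.rpow_pos_of_pos hk0 _
  have hq4 : q ^ 4 = k := by
    rw [hq, ← Real.rpow_natCast, ← Real.rpow_mul hk0.le]
    norm_num
  have hq3 : q ^ 3 = (k : ℝ) ^ (3 / 4 : ℝ) := by
    rw [hq, ← Real.rpow_natCast, ← Real.rpow_mul hk0.le]
    norm_num
  have hkd : (k : ℝ) * (c / q) ^ 2 = c ^ 2 * q ^ 2 := by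
    rw [← hq4]
    field_simp
  have hkd1 : (k : ℝ) * (c / q) = c * q ^ 3 := by
    rw [← hq4]
    field_simp
  obtain ⟨B, hB1, hB2, hB3, hB4⟩ := block_one k (c / q) (Real.exp (c ^ 4)) (by positivity)
    (by rw [div_le_iff₀ hq0]; linarith)
    (by
      rw [hkd]
      have h5 : 3 ≤ c * q := by
        rw [div_le_iff₀ hc] at h2
        linarith
      have h6 : c ^ 2 * q ^ 2 = (c * q) ^ 2 := by ring
      rw [h6]
      nlinarith)
    (by
      have h5 : (c / q) ^ 4 = c ^ 4 / k := by rw [div_pow, hq4]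
      rw [h5]
      have h6 : 1 + c ^ 4 / k ≤ Real.exp (c ^ 4 / k) := by
        have := Real.add_one_le_exp (c ^ 4 / k)
        linarith
      refine (pow_le_pow_left₀ (by positivity) h6 k).trans (le_of_eq ?_)
      rw [← Real.exp_nat_mul]
      congr 1
      field_simp)
    h3
  refine ⟨B, hB1, hB2, hB3, fun b hb => ?_⟩
  have h5 := hB4 b hb
  rw [hkd1, hq3] at h5
  linarith

end Pool.Agent.Helper80.TQ
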