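import Pool.Agent.Helper80.TQ.Wt

/-!
# The energy of the weights
-/

set_option autoImplicit false

open Finset

namespace Pool.Agent.Helper80.TQ

/-- the weight of the pairs with sum `n` -/
noncomputable def R (d : ℝ) (k n : ℕ) : ℝ :=
  ∑ a ∈ range (2 ^ k), ∑ b ∈ range (2 ^ k), if a + b = n then wt d k a * wt d k b else 0

/-- the weight of the pairs with sum `n - 1` -/
noncomputable def R' (d : ℝ) (k n : ℕ) : ℝ :=
  ∑ a ∈ range (2 ^ k), ∑ b ∈ range (2 ^ k), if a + b + 1 = n then wt d k a * wt d k b else 0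

theorem R'_zero (d : ℝ) (k : ℕ) : R' d k 0 = 0 := by
  unfold R'
  exact sum_eq_zero fun a _ => sum_eq_zero fun b _ => if_neg (by omega)

theorem R'_succ (d : ℝ) (k n : ℕ) : R' d k (n + 1) = R d k n := by
  unfold R' R
  refine sum_congr rfl fun a _ => sum_congr rfl fun b _ => ?_
  by_cases h : a + b = n
  · rw [if_pos h, if_pos (by omega)]
  · rw [if_neg h, if_neg (by omega)]

/-- a double sum, split by parities -/
theorem sum_four (n : ℕ) (f : ℕ → ℕ → ℝ) :
    ∑ a ∈ range (2 * n), ∑ b ∈ range (2 * n), f a b = ∑ a ∈ range n, ∑ b ∈ range n,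
      ((f (2 * a) (2 * b) + f (2 * a) (2 * b + 1)) +
        (f (2 * a + 1) (2 * b) + f (2 * a + 1) (2 * b + 1))) := by
  rw [sum_double]
  refine sum_congr rfl fun a _ => ?_
  rw [sum_double, sum_double, ← sum_add_distrib]

theorem R_even (d : ℝ) (k n : ℕ) :
    R d (k + 1) (2 * n) = (1 + d) ^ 2 * R d k n + (1 - d) ^ 2 * R' d k n := by
  unfold R R'
  rw [pow_succ, mul_comm (2 ^ k) 2, sum_four, mul_sum, mul_sum, ← sum_add_distrib]
  refine sum_congr rfl fun a _ => ?_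
  rw [mul_sum, mul_sum, ← sum_add_distrib]
  refine sum_congr rfl fun b _ => ?_
  rw [wt_even, wt_odd, wt_even, wt_odd]
  have h1 : ¬ (2 * a + (2 * b + 1) = 2 * n) := by omega
  have h2 : ¬ (2 * a + 1 + 2 * b = 2 * n) := by omega
  rw [if_neg h1, if_neg h2]
  by_cases h3 : a + b = n
  · have h4 : ¬ (a + b + 1 = n) := by omega
    rw [if_pos h3, if_neg h4, if_pos (by omega), if_neg (by omega)]
    ring
  · by_cases h4 : a + b + 1 = n
    · rw [if_neg h3, if_pos h4, if_neg (by omega), if_pos (by omega)]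
      ring
    · rw [if_neg h3, if_neg h4, if_neg (by omega), if_neg (by omega)]
      ring

theorem R_odd (d : ℝ) (k n : ℕ) :
    R d (k + 1) (2 * n + 1) = 2 * (1 + d) * (1 - d) * R d k n := by
  unfold R
  rw [pow_succ, mul_comm (2 ^ k) 2, sum_four, mul_sum]
  refine sum_congr rfl fun a _ => ?_
  rw [mul_sum]
  refine sum_congr rfl fun b _ => ?_
  rw [wt_even, wt_odd, wt_even, wt_odd]
  have h1 : ¬ (2 * a + 2 * b = 2 * n + 1) := by omega
  have h2 : ¬ (2 * a + 1 + (2 * b + 1) = 2 * n + 1) := by omega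
  rw [if_neg h1, if_neg h2]
  by_cases h3 : a + b = n
  · rw [if_pos h3, if_pos (by omega), if_pos (by omega)]
    ring
  · rw [if_neg h3, if_neg (by omega), if_neg (by omega)]
    ring

theorem R'_even (d : ℝ) (k n : ℕ) :
    R' d (k + 1) (2 * n) = 2 * (1 + d) * (1 - d) * R' d k n := by
  cases n with
  | zero => rw [mul_zero, R'_zero, R'_zero, mul_zero]
  | succ n =>
    rw [show 2 * (n + 1) = 2 * n + 1 + 1 by ring, R'_succ, R'_succ, R_odd]

theorem R'_odd (d : ℝ) (k n : ℕ) :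
    R' d (k + 1) (2 * n + 1) = (1 + d) ^ 2 * R d k n + (1 - d) ^ 2 * R' d k n := by
  rw [R'_succ, R_even]

/-- the energy -/
noncomputable def P (d : ℝ) (k : ℕ) : ℝ := ∑ n ∈ range (2 * 2 ^ k), R d k n ^ 2

/-- the correlation -/
noncomputable def Q (d : ℝ) (k : ℕ) : ℝ := ∑ n ∈ range (2 * 2 ^ k), R d k n * R' d k n

theorem P'_le (d : ℝ) (k : ℕ) : ∑ n ∈ range (2 * 2 ^ k), R' d k n ^ 2 ≤ P d k := by
  unfold P
  obtain ⟨m, hm⟩ : ∃ m, 2 * 2 ^ k = m + 1 := ⟨2 * 2 ^ k - 1, by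
    have : 0 < 2 ^ k := by positivity
    omega⟩
  rw [hm, sum_range_succ', R'_zero]
  rw [sum_congr rfl fun n _ => by rw [R'_succ], sum_range_succ]
  have := sq_nonneg (R d k m)
  simp only [ne_eq, OfNat.ofNat_ne_zero, not_false_eq_true, zero_pow, add_zero]
  linarith

theorem P_succ (d : ℝ) (k : ℕ) : P d (k + 1) ≤
    ((1 + d) ^ 4 + (1 - d) ^ 4 + 4 * ((1 + d) ^ 2 * (1 - d) ^ 2)) * P d k +
      2 * ((1 + d) ^ 2 * (1 - d) ^ 2) * Q d k := by
  have h1 : P d (k + 1) = ∑ n ∈ range (2 * 2 ^ k),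
      (((1 + d) ^ 4 + 4 * ((1 + d) ^ 2 * (1 - d) ^ 2)) * R d k n ^ 2 +
        2 * ((1 + d) ^ 2 * (1 - d) ^ 2) * (R d k n * R' d k n) +
        (1 - d) ^ 4 * R' d k n ^ 2) := by
    unfold P
    rw [show 2 * 2 ^ (k + 1) = 2 * (2 * 2 ^ k) by ring, sum_double]
    refine sum_congr rfl fun n _ => ?_
    rw [R_even, R_odd]
    ring
  rw [h1, sum_add_distrib, sum_add_distrib, ← mul_sum, ← mul_sum, ← mul_sum]
  have h2 := mul_le_mul_of_nonneg_left (P'_le d k) (by positivity : 0 ≤ (1 - d) ^ 4)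
  unfold P Q at *
  linarith

theorem Q_succ (d : ℝ) (hd0 : 0 ≤ d) (hd1 : d ≤ 1) (k : ℕ) : Q d (k + 1) ≤
    2 * (1 + d) * (1 - d) * ((1 + d) ^ 2 + (1 - d) ^ 2) * (P d k + Q d k) := by
  have h1 : Q d (k + 1) = ∑ n ∈ range (2 * 2 ^ k),
      (2 * (1 + d) * (1 - d) * (1 + d) ^ 2 * R d k n ^ 2 +
        2 * (1 + d) * (1 - d) * ((1 + d) ^ 2 + (1 - d) ^ 2) * (R d k n * R' d k n) +
        2 * (1 + d) * (1 - d) * (1 - d) ^ 2 * R' d k n ^ 2) := by
    unfold Q
    rw [show 2 * 2 ^ (k + 1) = 2 * (2 * 2 ^ k) by ring, sum_double]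
    refine sum_congr rfl fun n _ => ?_
    rw [R_even, R_odd, R'_even, R'_odd]
    ring
  rw [h1, sum_add_distrib, sum_add_distrib, ← mul_sum, ← mul_sum, ← mul_sum]
  have h0 : 0 ≤ 2 * (1 + d) * (1 - d) := by
    have : 0 ≤ 1 - d := by linarith
    positivity
  have h2 := mul_le_mul_of_nonneg_left (P'_le d k)
    (mul_nonneg h0 (sq_nonneg (1 - d)))
  unfold P Q at *
  linarith

/-- **the energy with carries**: the second order terms cancel -/
theorem energy_le (d : ℝ) (hd0 : 0 ≤ d) (hd1 : d ≤ 1) (k : ℕ) :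
    P d k ≤ (8 * (1 + d ^ 4)) ^ k ∧ Q d k ≤ (8 * (1 + d ^ 4)) ^ k := by
  induction k with
  | zero =>
    constructor
    · have r0 : R d 0 0 = 1 := by
        unfold R
        rw [pow_zero, sum_range_one, sum_range_one, if_pos rfl]
        simp [wt]
      have r1 : R d 0 1 = 0 := by simp [R]
      unfold P
      rw [pow_zero, mul_one, sum_range_succ, sum_range_succ, range_zero, sum_empty, r0, r1]
      norm_num
    · have r1 : R d 0 1 = 0 := by simp [R]
      unfold Q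
      rw [pow_zero, mul_one, sum_range_succ, sum_range_succ, range_zero, sum_empty, r1, R'_zero]
      norm_num
  | succ k ih =>
    obtain ⟨h1, h2⟩ := ih
    obtain ⟨M, hM⟩ : ∃ M, M = (8 * (1 + d ^ 4)) ^ k := ⟨_, rfl⟩
    have hM0 : 0 ≤ M := by rw [hM]; positivity
    rw [← hM] at h1 h2
    have hd : 0 ≤ 1 - d := by linarith
    rw [pow_succ, ← hM]
    constructor
    · refine (P_succ d k).trans ?_
      have a1 := mul_le_mul_of_nonneg_left h1
        (by positivity : 0 ≤ (1 + d) ^ 4 + (1 - d) ^ 4 + 4 * ((1 + d) ^ 2 * (1 - d) ^ 2))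
      have a2 := mul_le_mul_of_nonneg_left h2
        (by positivity : 0 ≤ 2 * ((1 + d) ^ 2 * (1 - d) ^ 2))
      refine (add_le_add a1 a2).trans (le_of_eq ?_)
      ring
    · refine (Q_succ d hd0 hd1 k).trans ?_
      have a1 := mul_le_mul_of_nonneg_left (add_le_add h1 h2)
        (by positivity : 0 ≤ 2 * (1 + d) * (1 - d) * ((1 + d) ^ 2 + (1 - d) ^ 2))
      refine a1.trans ?_
      have e : 2 * (1 + d) * (1 - d) * ((1 + d) ^ 2 + (1 - d) ^ 2) * (M + M) =
          M * (8 * (1 - d ^ 4)) := by ring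
      rw [e]
      refine mul_le_mul_of_nonneg_left ?_ hM0
      have : 0 ≤ d ^ 4 := by positivity
      linarith

/-- in the form of the energy of a weight function -/
theorem energy_form (d : ℝ) (hd0 : 0 ≤ d) (hd1 : d ≤ 1) (k : ℕ) :
    ∑ n ∈ range (2 * 2 ^ k), (∑ v ∈ (range (2 ^ k) ×ˢ range (2 ^ k)).filter
      (fun v => v.1 + v.2 = n), wt d k v.1 * wt d k v.2) ^ 2 ≤ (8 * (1 + d ^ 4)) ^ k := by
  refine le_trans (le_of_eq ?_) (energy_le d hd0 hd1 k).1
  unfold P R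
  refine sum_congr rfl fun n _ => ?_
  rw [sum_filter, sum_product]

end Pool.Agent.Helper80.TQ
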