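import Pool.Agent.Helper80.TQ.Blk
import Pool.Agent.Helper80.SP.Union
import Pool.Agent.Helper38.SP.One
import Pool.Agent.Helper87.TQ.Dig

/-!
# Three-quarter law: the sets with many digits `0`
-/

set_option autoImplicit false

open Finset Filter

namespace Pool.Agent.Helper80.TQ

open Pool.Agent.Helper25.RC (below mem_below)
open Pool.Agent.Helper5.RC (sol blk mem_blk AA)
open Pool.Agent.Helper38.SP (quad sol_eq_quad)
open Pool.Agent.Helper80.RC (chain_two card_below_eq_num sol_zero)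

/-- the block property at the scale `2 ^ j` -/
def GoodT (D c : ℝ) (j : ℕ) (B : Finset ℕ) : Prop :=
  1 ≤ j ∧ B ⊆ range (2 ^ (j - 1)) ∧ ((quad B).card : ℝ) ≤ D * 2 ^ (j - 1) ∧
    √((2 : ℝ) ^ (j - 1)) ≤ 4 * #B ∧
    ∀ b ∈ B, ((j - 1 : ℕ) : ℝ) * (c * ((j - 1 : ℕ) : ℝ) ^ (-(1 / 4) : ℝ)) / 2 ≤
      2 * (#{i ∈ range (j - 1) | b / 2 ^ i % 2 = 0} : ℝ) - ((j - 1 : ℕ) : ℝ)

theorem exists_good (c : ℝ) (hc : 0 < c) :
    ∃ (D : ℝ) (J : ℕ), ∀ j, J ≤ j → ∃ B : Finset ℕ, GoodT D c j B := by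
  obtain ⟨D, hD⟩ := block c hc
  obtain ⟨k₀, hk₀⟩ := eventually_atTop.1 hD
  refine ⟨D, k₀ + 2, fun j hj => ?_⟩
  obtain ⟨B, h1, h2, h3, h4⟩ := hk₀ (j - 1) (by omega)
  refine ⟨B, by omega, h1, h2, h3, fun b hb => ?_⟩
  have h5 := h4 b hb
  rw [zs_eq] at h5
  have hk : (0 : ℝ) < ((j - 1 : ℕ) : ℝ) := by exact_mod_cast (by omega : 0 < j - 1)
  have h6 : ((j - 1 : ℕ) : ℝ) * (c * ((j - 1 : ℕ) : ℝ) ^ (-(1 / 4) : ℝ)) =
      c * ((j - 1 : ℕ) : ℝ) ^ (3 / 4 : ℝ) := by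
    have h7 : ((j - 1 : ℕ) : ℝ) * ((j - 1 : ℕ) : ℝ) ^ (-(1 / 4) : ℝ) =
        ((j - 1 : ℕ) : ℝ) ^ (3 / 4 : ℝ) := by
      nth_rewrite 1 [← Real.rpow_one ((j - 1 : ℕ) : ℝ)]
      rw [← Real.rpow_add hk]
      norm_num
    rw [← h7]
    ring
  rw [h6]
  linarith

/-- **the sets with many digits `0`** -/
theorem low (T : ℝ) : ∃ (A : Set ℕ) (c C : ℝ), 0 < c ∧
    (∀ x : ℕ, 2 ≤ x → c * √x ≤ #(below A x)) ∧
    (∀ x : ℕ, ∑ n ∈ range x, (Pool.Agent.Helper25.RC.rep A n : ℝ) ^ 2 ≤ C * x) ∧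
    ∀ᶠ K : ℕ in atTop, ∀ a ∈ A, a < 2 ^ K →
      (K : ℝ) / 2 + T * (K : ℝ) ^ (3 / 4 : ℝ) ≤ #{i ∈ range K | a / 2 ^ i % 2 = 0} := by
  classical
  obtain ⟨c, hc⟩ : ∃ c, c = 12 * |T| + 1 := ⟨_, rfl⟩
  have hc0 : 0 < c := by rw [hc]; positivity
  obtain ⟨D, J, hS⟩ := exists_good c hc0
  -- the blocks
  have hex : ∀ j, ∃ B : Finset ℕ, (J ≤ j → GoodT D c j B) ∧ (¬ J ≤ j → B = {0}) := by
    intro j
    by_cases hj : J ≤ j
    · obtain ⟨B, hB⟩ := hS j hj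
      exact ⟨B, fun _ => hB, fun h => absurd hj h⟩
    · exact ⟨{0}, fun h => absurd h hj, fun _ => rfl⟩
  choose B hB1 hB2 using hex
  have hBk : ∀ j, J ≤ j → ∀ b ∈ B j, 2 * b < 2 ^ j := by
    intro j hj b hb
    have h1 := hB1 j hj
    have h2 := mem_range.1 (h1.2.1 hb)
    have h3 : 2 ^ j = 2 * 2 ^ (j - 1) := by
      obtain ⟨i, rfl⟩ := Nat.exists_eq_add_of_le h1.1
      rw [show 1 + i - 1 = i by omega, add_comm, pow_succ]
      ring
    omega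
  have hBr : ∀ j, B j ⊆ range (2 ^ j) := by
    intro j
    by_cases hj : J ≤ j
    · intro b hb
      have := hBk j hj b hb
      rw [mem_range]
      omega
    · rw [hB2 j hj, singleton_subset_iff, mem_range]
      positivity
  have hpow : ∀ j, J ≤ j → (2 : ℝ) ^ j = 2 * 2 ^ (j - 1) := by
    intro j hj
    obtain ⟨i, hi⟩ := Nat.exists_eq_add_of_le (hB1 j hj).1
    rw [hi, show 1 + i - 1 = i by omega, add_comm, pow_succ]
    ring
  have hE : ∀ j, ((sol ((fun j => 2 ^ j) j) (B j)).card : ℝ) ≤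
      max D 1 * (((fun j => 2 ^ j) j : ℕ) : ℝ) := by
    intro j
    push_cast
    by_cases hj : J ≤ j
    · rw [sol_eq_quad (hBk j hj)]
      refine (hB1 j hj).2.2.1.trans ?_
      have h1 : (0 : ℝ) < 2 ^ (j - 1) := by positivity
      have h2 : D ≤ max D 1 := le_max_left _ _
      have h3 : (1 : ℝ) ≤ max D 1 := le_max_right _ _
      have h4 : (2 : ℝ) ^ (j - 1) ≤ 2 ^ j := by rw [hpow j hj]; linarith
      have h5 : D * 2 ^ (j - 1) ≤ max D 1 * 2 ^ (j - 1) := mul_le_mul_of_nonneg_right h2 h1.le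
      have h6 : max D 1 * 2 ^ (j - 1) ≤ max D 1 * 2 ^ j :=
        mul_le_mul_of_nonneg_left h4 (by linarith)
      linarith
    · rw [hB2 j hj]
      refine (sol_zero j).trans ?_
      have h1 : (1 : ℝ) ≤ 2 ^ j := one_le_pow₀ (by norm_num)
      have h2 : (1 : ℝ) ≤ max D 1 := le_max_right _ _
      nlinarith
  have hcard : ∀ j, (((fun j => 2 ^ j) j : ℕ) : ℝ) ≤ max 32 ((2 : ℝ) ^ J) * (#(B j) : ℝ) ^ 2 := by
    intro j
    push_cast
    by_cases hj : J ≤ j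
    · have h1 := (hB1 j hj).2.2.2.1
      have h2 : (2 : ℝ) ^ j ≤ 32 * (#(B j) : ℝ) ^ 2 := by
        have h3 := pow_le_pow_left₀ (Real.sqrt_nonneg _) h1 2
        rw [Real.sq_sqrt (by positivity)] at h3
        rw [hpow j hj]
        linarith
      exact h2.trans (mul_le_mul_of_nonneg_right (le_max_left _ _) (by positivity))
    · rw [hB2 j hj, card_singleton]
      have h1 : (2 : ℝ) ^ j ≤ 2 ^ J := pow_le_pow_right₀ (by norm_num) (by omega)
      have h2 := le_max_right (32 : ℝ) ((2 : ℝ) ^ J)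
      push_cast
      linarith
  -- the count
  obtain ⟨τ, hτ⟩ : ∃ τ, τ = max 32 ((2 : ℝ) ^ J) := ⟨_, rfl⟩
  have hτ0 : 0 < τ := by rw [hτ]; exact lt_of_lt_of_le (by norm_num) (le_max_left _ _)
  rw [← hτ] at hcard
  have hcount : ∀ x : ℕ, 2 ≤ x → 1 / √(4 * τ) * √x ≤ #(below (AA (fun j => 2 ^ j) B) x) := by
    intro x hx
    have h1 := Pool.Agent.Helper5.RC.many chain_two (Q := 2)
      (fun j => by show 2 ^ (j + 1) ≤ 2 * 2 ^ j; rw [pow_succ]; omega) hBr hcard x hx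
    rw [← card_below_eq_num] at h1
    have h2 : √(x : ℝ) ≤ √(4 * τ) * #(below (AA (fun j => 2 ^ j) B) x) := by
      rw [← Real.sqrt_sq (Nat.cast_nonneg (α := ℝ) #(below (AA (fun j => 2 ^ j) B) x)),
        ← Real.sqrt_mul (by positivity)]
      refine Real.sqrt_le_sqrt (h1.trans (le_of_eq ?_))
      push_cast
      ring
    rw [one_div, inv_mul_le_iff₀ (by positivity)]
    exact h2
  refine ⟨AA (fun j => 2 ^ j) B, 1 / √(4 * τ), 2401 * max D 1, by positivity, hcount, ?_, ?_⟩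
  · intro x
    have h1 := Pool.Agent.Helper5.RC.mean_square chain_two hE x
    refine le_trans (le_of_eq ?_) h1
    exact sum_congr rfl fun n _ => by rw [Pool.Agent.Helper80.RC.rep_eq]
  · refine Pool.Agent.Helper87.TQ.digits (c := c) (by rw [hc]; linarith) (J + 1) ?_
    intro a ha
    obtain ⟨j, hj⟩ := ha
    have h1 := mem_blk.1 hj
    simp only at h1
    by_cases hJ : J ≤ j
    · right
      have h2 := hB1 j hJ
      refine ⟨j - 1, a - 2 ^ j, ?_, mem_range.1 (h2.2.1 h1.2), h2.2.2.2.2 _ h1.2⟩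
      rw [show j - 1 + 1 = j by have := h2.1; omega]
      omega
    · left
      have h2 := h1.2
      rw [hB2 j hJ, mem_singleton] at h2
      have h3 : 2 ^ (j + 1) ≤ 2 ^ (J + 1) := Nat.pow_le_pow_right (by norm_num) (by omega)
      have h4 : 0 < 2 ^ j := by positivity
      rw [pow_succ] at h3
      omega

end Pool.Agent.Helper80.TQ
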