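import Mathlib

/-!
# Weights of biased binary digits
-/

set_option autoImplicit false

open Finset

namespace Pool.Agent.Helper80.TQ

theorem sum_double (n : ℕ) (f : ℕ → ℝ) :
    ∑ a ∈ range (2 * n), f a = ∑ a ∈ range n, (f (2 * a) + f (2 * a + 1)) := by
  induction n with
  | zero => simp
  | succ n ih =>
    rw [show 2 * (n + 1) = 2 * n + 1 + 1 by ring, sum_range_succ, sum_range_succ, ih,
      sum_range_succ]
    ring

/-- product of `1 + d` for every digit `0` and `1 - d` for every digit `1`, among the first `k`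
binary digits -/
def wt (d : ℝ) : ℕ → ℕ → ℝ
  | 0, _ => 1
  | k + 1, a => (if a % 2 = 0 then 1 + d else 1 - d) * wt d k (a / 2)

/-- the number of digits `0` among the first `k` binary digits -/
def zs : ℕ → ℕ → ℕ
  | 0, _ => 0
  | k + 1, a => (if a % 2 = 0 then 1 else 0) + zs k (a / 2)

theorem wt_even (d : ℝ) (k a : ℕ) : wt d (k + 1) (2 * a) = (1 + d) * wt d k a := by
  unfold wt
  rw [if_pos (by omega), show 2 * a / 2 = a by omega]
  cases k <;> rfl

theorem wt_odd (d : ℝ) (k a : ℕ) : wt d (k + 1) (2 * a + 1) = (1 - d) * wt d k a := by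
  unfold wt
  rw [if_neg (by omega), show (2 * a + 1) / 2 = a by omega]
  cases k <;> rfl

theorem zs_even (k a : ℕ) : zs (k + 1) (2 * a) = 1 + zs k a := by
  unfold zs
  rw [if_pos (by omega), show 2 * a / 2 = a by omega]
  cases k <;> rfl

theorem zs_odd (k a : ℕ) : zs (k + 1) (2 * a + 1) = zs k a := by
  unfold zs
  rw [if_neg (by omega), show (2 * a + 1) / 2 = a by omega]
  cases k <;> simp [zs]

theorem zs_eq (k a : ℕ) : zs k a = #{i ∈ range k | a / 2 ^ i % 2 = 0} := by
  induction k generalizing a with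
  | zero => simp [zs]
  | succ k ih =>
    unfold zs
    rw [ih (a / 2), card_filter, card_filter, sum_range_succ']
    rw [pow_zero, Nat.div_one, add_comm]
    congr 1
    refine sum_congr rfl fun i _ => ?_
    rw [Nat.div_div_eq_div_mul, ← pow_succ']

theorem wt_nonneg {d : ℝ} (hd0 : 0 ≤ d) (hd1 : d ≤ 1) (k a : ℕ) : 0 ≤ wt d k a := by
  induction k generalizing a with
  | zero => exact zero_le_one
  | succ k ih =>
    unfold wt
    refine mul_nonneg ?_ (ih _)
    split_ifs <;> linarith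

theorem wt_le {d : ℝ} (hd0 : 0 ≤ d) (hd1 : d ≤ 1) (k a : ℕ) : wt d k a ≤ (1 + d) ^ k := by
  induction k generalizing a with
  | zero => simp [wt]
  | succ k ih =>
    unfold wt
    rw [pow_succ, mul_comm ((1 + d) ^ k)]
    refine mul_le_mul ?_ (ih _) (wt_nonneg hd0 hd1 k _) (by linarith)
    split_ifs <;> linarith

theorem sum_wt (d : ℝ) (k : ℕ) : ∑ a ∈ range (2 ^ k), wt d k a = 2 ^ k := by
  induction k with
  | zero => simp [wt]
  | succ k ih =>
    rw [pow_succ, mul_comm (2 ^ k) 2, sum_double]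
    rw [sum_congr rfl fun a _ => by rw [wt_even, wt_odd]]
    rw [← show ∑ a ∈ range (2 ^ k), 2 * wt d k a = ∑ a ∈ range (2 ^ k),
      ((1 + d) * wt d k a + (1 - d) * wt d k a) from sum_congr rfl fun a _ => by ring,
      ← mul_sum, ih]
    ring

/-- the deviation of `#zeros - #ones` from `k d` -/
noncomputable def dev (d : ℝ) (k a : ℕ) : ℝ := 2 * (zs k a : ℝ) - k - k * d

theorem dev_even (d : ℝ) (k a : ℕ) : dev d (k + 1) (2 * a) = (1 - d) + dev d k a := by
  unfold dev
  rw [zs_even]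
  push_cast
  ring

theorem dev_odd (d : ℝ) (k a : ℕ) : dev d (k + 1) (2 * a + 1) = (-1 - d) + dev d k a := by
  unfold dev
  rw [zs_odd]
  push_cast
  ring

theorem sum_dev (d : ℝ) (k : ℕ) :
    ∑ a ∈ range (2 ^ k), wt d k a * dev d k a ^ 2 = (1 - d ^ 2) * k * 2 ^ k := by
  induction k with
  | zero => simp [wt, dev, zs]
  | succ k ih =>
    rw [pow_succ, mul_comm (2 ^ k) 2, sum_double]
    have h1 : ∀ a ∈ range (2 ^ k), wt d (k + 1) (2 * a) * dev d (k + 1) (2 * a) ^ 2 +
        wt d (k + 1) (2 * a + 1) * dev d (k + 1) (2 * a + 1) ^ 2 =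
        2 * (wt d k a * dev d k a ^ 2) + 2 * (1 - d ^ 2) * wt d k a := by
      intro a _
      rw [wt_even, wt_odd, dev_even, dev_odd]
      ring
    rw [sum_congr rfl h1, sum_add_distrib, ← mul_sum, ← mul_sum, ih, sum_wt]
    push_cast
    ring

/-- most of the weight is on numbers with many digits `0` -/
theorem sum_good {d : ℝ} (hd0 : 0 < d) (hd1 : d ≤ 1) (k : ℕ) (hk : 8 ≤ k * d ^ 2) :
    (2 : ℝ) ^ k / 2 ≤ ∑ a ∈ range (2 ^ k) with (k * d / 2 ≤ 2 * (zs k a : ℝ) - k), wt d k a := by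
  have hk0 : (0 : ℝ) < k := by
    by_contra h
    have h1 : (k : ℝ) = 0 := le_antisymm (not_lt.1 h) (Nat.cast_nonneg k)
    rw [h1] at hk
    norm_num at hk
  have h1 := sum_filter_add_sum_filter_not (range (2 ^ k))
    (fun a => k * d / 2 ≤ 2 * (zs k a : ℝ) - k) (fun a => wt d k a)
  rw [sum_wt] at h1
  have h2 : ∑ a ∈ range (2 ^ k) with ¬ (k * d / 2 ≤ 2 * (zs k a : ℝ) - k),
      wt d k a * (k * d / 2) ^ 2 ≤ (1 - d ^ 2) * k * 2 ^ k := by
    rw [← sum_dev]
    calc _ ≤ ∑ a ∈ range (2 ^ k) with ¬ (k * d / 2 ≤ 2 * (zs k a : ℝ) - k),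
          wt d k a * dev d k a ^ 2 := by
          refine sum_le_sum fun a ha => ?_
          have h3 := not_le.1 (mem_filter.1 ha).2
          refine mul_le_mul_of_nonneg_left ?_ (wt_nonneg hd0.le hd1 k a)
          have h4 : dev d k a < -(k * d / 2) := by
            unfold dev
            linarith
          have h5 : 0 < k * d / 2 := by positivity
          nlinarith
      _ ≤ _ := sum_le_sum_of_subset_of_nonneg (filter_subset _ _) fun a _ _ =>
          mul_nonneg (wt_nonneg hd0.le hd1 k a) (sq_nonneg _)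
  rw [← sum_mul] at h2
  have h6 : ∑ a ∈ range (2 ^ k) with ¬ (k * d / 2 ≤ 2 * (zs k a : ℝ) - k), wt d k a ≤
      2 ^ k / 2 := by
    have h7 : (0 : ℝ) < 2 ^ k := by positivity
    have h8 : (k * d / 2) ^ 2 = k * (k * d ^ 2) / 4 := by ring
    rw [h8] at h2
    obtain ⟨S, hS⟩ : ∃ S, S = ∑ a ∈ range (2 ^ k) with ¬ (k * d / 2 ≤ 2 * (zs k a : ℝ) - k),
      wt d k a := ⟨_, rfl⟩
    rw [← hS] at h2 ⊢
    have hS0 : 0 ≤ S := by
      rw [hS]
      exact sum_nonneg fun a _ => wt_nonneg hd0.le hd1 k a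
    have h9 : S * (k * 8 / 4) ≤ S * (k * (k * d ^ 2) / 4) := by
      refine mul_le_mul_of_nonneg_left ?_ hS0
      have := mul_le_mul_of_nonneg_left hk hk0.le
      linarith
    have h10 : (1 - d ^ 2) * k * 2 ^ k ≤ k * 2 ^ k := by
      have : 0 ≤ d ^ 2 * (k * 2 ^ k) := by positivity
      nlinarith
    have h11 : S * (k * 8 / 4) ≤ k * 2 ^ k := by linarith
    have h12 : k * (2 * S) ≤ k * 2 ^ k := by linarith
    have := le_of_mul_le_mul_left h12 hk0
    linarith
  linarith

end Pool.Agent.Helper80.TQ
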